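import Pool.Agent.Helper37.OF.St

/-!
# Project OF, module STR: structure of the relators
-/

set_option autoImplicit false

namespace Pool.Agent.Helper97.OF

open Pool.Agent.Helper37.OF Monoid Pool.Agent.Helper4.FS

universe u v w x

private theorem cc_ne {A : Type u} {Q : Type x} {G : Type w} [Group A] [Group Q] [Group G]
    (π : A →* Q) (f : π.ker →* G) (s : Q → A) (a : A) (q : Q) (L : List A) (hG : Gd π f L)
    (ha : a ∈ L) (h1 : π a = 1) : cc π f s a q ≠ 1 := by
  have hk : (s (π a * q))⁻¹ * a * s q ∈ π.ker := by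
    rw [h1, one_mul, MonoidHom.mem_ker, map_mul, map_mul, map_inv, h1]
    simp
  have e : (s (π a * q))⁻¹ * a * s q = (s q)⁻¹ * a * s q := by rw [h1, one_mul]
  have hk' : (s q)⁻¹ * a * s q ∈ π.ker := by rw [← e]; exact hk
  have h2 := hG a ha (s q) hk'
  have e2 : (⟨(s (π a * q))⁻¹ * a * s q, hk⟩ : π.ker) = ⟨(s q)⁻¹ * a * s q, hk'⟩ :=
    Subtype.ext e
  rw [cc, dif_pos hk, e2]
  exact h2

section

variable {A : Type u} {B : Type v} {Q : Type x} {G : Type w} [Group A] [Group B] [Group Q]
  [Group G] (πA : A →* Q) (πB : B →* Q)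

/-- the list of the offsets -/
private noncomputable def ps : List (A × B) → List Q
  | [] => []
  | (p :: l) => (πB p.2 * Coprod.lift πA πB (wd l)) :: Coprod.lift πA πB (wd l) :: ps l

private theorem lift_cons (p : A × B) (l : List (A × B)) :
    Coprod.lift πA πB (wd (p :: l)) = πA p.1 * (πB p.2 * Coprod.lift πA πB (wd l)) := by
  rw [wd_cons, map_mul, map_mul, Coprod.lift_apply_inl, Coprod.lift_apply_inr, mul_assoc]

variable (f : πA.ker →* G) (g : πB.ker →* G) (s : Q → A) (s' : Q → B)

private theorem mem1 (l : List (A × B)) (q : Q) : ∀ t ∈ bl πA πB f g s s' l q,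
    (∃ c ∈ ps πA πB l, t.2.1 = c * q) ∧ ∃ c ∈ ps πA πB l, t.2.2.2 = c * q := by
  induction l with
  | nil => intro t ht; simp [bl] at ht
  | cons p l ih =>
    intro t ht
    rw [bl, List.mem_cons] at ht
    rcases ht with rfl | ht
    · refine ⟨⟨_, List.mem_cons_self, ?_⟩,
        ⟨_, List.mem_cons_of_mem _ List.mem_cons_self, rfl⟩⟩
      simp only [mul_assoc]
    · obtain ⟨⟨c, hc, h1⟩, ⟨c', hc', h2⟩⟩ := ih t ht
      exact ⟨⟨c, List.mem_cons_of_mem _ (List.mem_cons_of_mem _ hc), h1⟩,
        ⟨c', List.mem_cons_of_mem _ (List.mem_cons_of_mem _ hc'), h2⟩⟩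

private theorem mem2 (l : List (A × B)) (q : Q) : ∀ c ∈ ps πA πB l,
    ∃ t ∈ bl πA πB f g s s' l q, t.2.1 = c * q ∨ t.2.2.2 = c * q := by
  induction l with
  | nil => intro c hc; simp [ps] at hc
  | cons p l ih =>
    intro c hc
    rw [ps, List.mem_cons, List.mem_cons] at hc
    rcases hc with rfl | rfl | hc
    · refine ⟨_, List.mem_cons_self, Or.inl ?_⟩
      simp only [mul_assoc]
    · exact ⟨_, List.mem_cons_self, Or.inr rfl⟩
    · obtain ⟨t, ht, h⟩ := ih c hc
      exact ⟨t, List.mem_cons_of_mem _ ht, h⟩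

private theorem h1c (l : List (A × B)) (q : Q) (L : List B) (hB : Gd πB g L)
    (hL : ∀ p ∈ l, p.2 ∈ L) : ∀ t ∈ bl πA πB f g s s' l q, t.2.1 = t.2.2.2 → t.2.2.1 ≠ 1 := by
  induction l with
  | nil => intro t ht; simp [bl] at ht
  | cons p l ih =>
    intro t ht
    rw [bl, List.mem_cons] at ht
    rcases ht with rfl | ht
    · intro h
      simp only at h ⊢
      have h1 : πB p.2 = 1 := by
        have h2 : πB p.2 * (Coprod.lift πA πB (wd l) * q) =
            1 * (Coprod.lift πA πB (wd l) * q) := by rw [one_mul]; exact h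
        exact mul_right_cancel h2
      exact cc_ne πB g s' p.2 _ L hB (hL p List.mem_cons_self) h1
    · exact ih (fun p hp => hL p (List.mem_cons_of_mem _ hp)) t ht

private theorem h2c (l : List (A × B)) (q : Q) (L : List A) (hA : Gd πA f L)
    (hL : ∀ p ∈ l, p.1 ∈ L) :
    (bl πA πB f g s s' l q).IsChain (fun p q => p.2.2.2 = q.2.1 → q.1 ≠ 1) := by
  induction l with
  | nil => rw [bl]; exact List.IsChain.nil
  | cons p l ih =>
    have ih' := ih (fun p hp => hL p (List.mem_cons_of_mem _ hp))
    cases l with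
    | nil => rw [bl, bl]; exact List.IsChain.singleton _
    | cons p' l' =>
      rw [bl]
      rw [bl] at ih' ⊢
      refine List.isChain_cons_cons.2 ⟨?_, ih'⟩
      intro h
      simp only at h ⊢
      rw [lift_cons, mul_assoc, mul_assoc] at h
      have h1 : πA p'.1 = 1 := by
        have h2 : πA p'.1 * (πB p'.2 * (Coprod.lift πA πB (wd l') * q)) =
            1 * (πB p'.2 * (Coprod.lift πA πB (wd l') * q)) := by rw [one_mul]; exact h
        exact mul_right_cancel h2
      exact cc_ne πA f s p'.1 _ L hA
        (hL p' (List.mem_cons_of_mem _ List.mem_cons_self)) h1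

private theorem bl_ne (l : List (A × B)) (hl : l ≠ []) (q : Q) :
    bl πA πB f g s s' l q ≠ [] := by
  cases l with
  | nil => exact absurd rfl hl
  | cons p l => rw [bl]; exact List.cons_ne_nil _ _

private theorem last_eq (l : List (A × B)) (q : Q) (h : bl πA πB f g s s' l q ≠ []) :
    ((bl πA πB f g s s' l q).getLast h).2.2.2 = q := by
  induction l with
  | nil => exact absurd rfl h
  | cons p l ih =>
    cases l with
    | nil =>
      simp only [bl, List.getLast_singleton]
      rw [wd_nil, map_one, one_mul]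
    | cons p' l' =>
      have hne := bl_ne πA πB f g s s' (p' :: l') (List.cons_ne_nil _ _) q
      have e : bl πA πB f g s s' (p :: p' :: l') q =
        (cc πA f s p.1 (πB p.2 * (Coprod.lift πA πB (wd (p' :: l')) * q)),
        πB p.2 * (Coprod.lift πA πB (wd (p' :: l')) * q),
        cc πB g s' p.2 (Coprod.lift πA πB (wd (p' :: l')) * q),
        Coprod.lift πA πB (wd (p' :: l')) * q) :: bl πA πB f g s s' (p' :: l') q := by
        rw [bl]
      have e2 : (bl πA πB f g s s' (p :: p' :: l') q).getLast h =
          (bl πA πB f g s s' (p' :: l') q).getLast hne := by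
        simp only [e]
        exact List.getLast_cons hne
      rw [e2]
      exact ih hne

end

theorem hSTR (hWRD : StWRD.{w, x}) : StSTR.{u, v, w, x} := by
  classical
  intro A B Q G _ _ _ _ πA πB f g s s' _ _ τ hτ l hl h1 hA hB
  refine ⟨(ps πA πB l).toFinset, ?_, fun q => ⟨?_, ?_⟩⟩
  · cases l with
    | nil => exact absurd rfl hl
    | cons p l => exact ⟨_, List.mem_toFinset.2 List.mem_cons_self⟩
  · rw [Wq]
    refine Subgroup.list_prod_mem _ ?_
    intro t ht
    obtain ⟨p, hp, rfl⟩ := List.mem_map.1 ht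
    obtain ⟨⟨c, hc, e1⟩, ⟨c', hc', e2⟩⟩ := mem1 πA πB f g s s' l q p hp
    have hn : (none : Option Q) ∈
        {i : Option Q | ∀ y, i = some y → ∃ c ∈ (ps πA πB l).toFinset, y = c * q} := by
      intro y hy
      exact absurd hy (by simp)
    have hx : (some p.2.1 : Option Q) ∈
        {i : Option Q | ∀ y, i = some y → ∃ c ∈ (ps πA πB l).toFinset, y = c * q} := by
      intro y hy
      exact ⟨c, List.mem_toFinset.2 hc, by rw [← Option.some.inj hy, e1]⟩
    have hy : (some p.2.2.2 : Option Q) ∈
        {i : Option Q | ∀ y, i = some y → ∃ c ∈ (ps πA πB l).toFinset, y = c * q} := by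
      intro y hy
      exact ⟨c', List.mem_toFinset.2 hc', by rw [← Option.some.inj hy, e2]⟩
    exact Subgroup.mul_mem _ (Subgroup.mul_mem _ (Subgroup.mul_mem _ (ofi_mem hn _)
      (ofi_mem hx _)) (ofi_mem hn _)) (Subgroup.inv_mem _ (ofi_mem hy _))
  · intro c hc
    have hne := bl_ne πA πB f g s s' l hl q
    have hlast := last_eq πA πB f g s s' l q hne
    have key := hWRD G Q τ (bl πA πB f g s s' l q) hne hτ
      (h1c πA πB f g s s' l q _ hB (fun p hp => List.mem_map_of_mem hp))
      (h2c πA πB f g s s' l q _ hA (fun p hp => List.mem_map_of_mem hp))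
      (by
        rw [hlast]
        intro h
        cases l with
        | nil => exact absurd rfl hl
        | cons p l =>
          have e : (bl πA πB f g s s' (p :: l) q).head hne =
            (cc πA f s p.1 (πB p.2 * (Coprod.lift πA πB (wd l) * q)),
            πB p.2 * (Coprod.lift πA πB (wd l) * q),
            cc πB g s' p.2 (Coprod.lift πA πB (wd l) * q),
            Coprod.lift πA πB (wd l) * q) := by
            simp only [bl, List.head_cons]
          rw [e] at h ⊢
          simp only at h ⊢
          rw [lift_cons] at h1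
          have h2 : πA p.1 = 1 := by
            have h3 : πA p.1 * (πB p.2 * (Coprod.lift πA πB (wd l) * q)) = q := by
              rw [← mul_assoc (πB p.2), ← mul_assoc, h1, one_mul]
            rw [← h] at h3
            exact mul_eq_right.1 h3
          exact cc_ne πA f s p.1 _ _ hA (by simp) h2)
    obtain ⟨t, ht, h⟩ := mem2 πA πB f g s s' l q c (List.mem_toFinset.1 hc)
    rcases h with h | h
    · rw [← h]; exact (key t ht).1
    · rw [← h]; exact (key t ht).2

end Pool.Agent.Helper97.OF
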